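import Pool.Agent.Helper96.RKF.Conv
import Pool.Agent.Helper96.RKF.Asm
import Pool.Agent.Helper10.RK.Asm

/-!
Proper cocompact actions on Kähler manifolds preserving a volume density whose curvature is
semipositive of constant rank `n - k`: the invariant pluricanonical forms have no common zero, if
the leaves of the kernel of the curvature are nonpositively curved for the metrics induced by some
invariant metric.
-/

open scoped Manifold ContDiff
open Pool.Agent.Helper10.Stmt Pool.Agent.Helper96.Stmt

namespace Pool.Agent.Results.MP_5ff3c6_ag.ConstantRankLeavesQuotients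

theorem result {n k : ℕ} (hk : 0 < k) (hn : k < n) {G M : Type*} [Group G] [MulAction G M]
    [TopologicalSpace M] [T2Space M] [ConnectedSpace M] [ChartedSpace (Fin n → ℂ) M]
    [IsManifold 𝓘(ℂ, Fin n → ℂ) ω M] (hact : ProperCocompact n G M)
    {h : M → Matrix (Fin n) (Fin n) ℂ} (hh : KahlerMetric n M h)
    (hinv : ∀ γ : G, InvMetric n h (fun y : M => γ • y))
    {v : M → ℝ} (hv : CanMetric n M v)
    (hvinv : ∀ (γ : G) (x : M), v (γ • x) * ‖jac n (fun y : M => γ • y) x‖ ^ 2 = v x)
    (hr : SemiposCorank n k M v)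
    {g : M → Matrix (Fin n) (Fin n) ℂ} (hg : LeafNonpos n M g v)
    (hginv : ∀ γ : G, InvMetric n g (fun y : M => γ • y)) : OrbSemiample n G M :=
  Pool.Agent.Helper96.RKF.orb_semiampleL Pool.Agent.Helper96.RKF.Asm.t_FRONTL
    Pool.Agent.Helper10.RK.Asm.tH_MAINRK hk hn hact hh hinv hv hvinv hr hg hginv

end Pool.Agent.Results.MP_5ff3c6_ag.ConstantRankLeavesQuotients
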