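import Pool.Agent.Helper45.Stmt.ConvFM
import Pool.Agent.Helper18.FM.Main

/-!
Proper cocompact actions on Kähler manifolds preserving a semidefinite Hermitian form which is locally pulled
back, by holomorphic maps, from Hermitian metrics whose real bisectional curvature is bounded along the map by
an invariant semipositive curvature form `θ` of the canonical bundle, and whose sum with `θ` is positive: the
invariant pluricanonical forms have no common zero.
-/

open scoped Manifold ContDiff
open Pool.Agent.Helper10.Stmt Pool.Agent.Helper45.Stmt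

namespace Pool.Agent.Results.MP_5ff3c6_ag.PullbackRBCQuotients

theorem result {n m : ℕ} {G M : Type*} [Group G] [MulAction G M] [TopologicalSpace M]
    [T2Space M] [ConnectedSpace M] [ChartedSpace (Fin n → ℂ) M] [IsManifold 𝓘(ℂ, Fin n → ℂ) ω M]
    (hact : ProperCocompact n G M)
    {h : M → Matrix (Fin n) (Fin n) ℂ} (hh : KahlerMetric n M h)
    (hinv : ∀ γ : G, InvMetric n h (fun y : M => γ • y))
    {v : M → ℝ} (hv : CanMetric n M v)
    (hvinv : ∀ (γ : G) (x : M), v (γ • x) * ‖jac n (fun y : M => γ • y) x‖ ^ 2 = v x)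
    {c : ℝ} (hc : 0 ≤ c) (hsemi : CurvSemipos n M v c)
    {g : M → Matrix (Fin n) (Fin n) ℂ} (hginv : ∀ γ : G, InvMetric n g (fun y : M => γ • y))
    (hpos : CurvAddPos n M v g) (hg : PullRBC n m M g v c) : OrbSemiample n G M :=
  orb_of_fm Pool.Agent.Helper18.FM.t_MAINF hact hh hinv hginv hv hvinv hc hsemi hpos hg

end Pool.Agent.Results.MP_5ff3c6_ag.PullbackRBCQuotients
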