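import Pool.Agent.Helper10.Stmt.Conv
import Pool.Agent.Helper10.SP.Asm

/-!
Proper cocompact actions on Kähler manifolds preserving a volume density whose curvature is
semipositive of constant rank `n - 1`: the invariant pluricanonical forms have no common zero.
-/

open scoped Manifold ContDiff
open Pool.Agent.Helper10.Stmt

namespace Pool.Agent.Results.MP_5ff3c6_ag.SemipositiveQuotients

theorem result {n : ℕ} (hn : 2 ≤ n) {G M : Type*} [Group G] [MulAction G M] [TopologicalSpace M]
    [T2Space M] [ConnectedSpace M] [ChartedSpace (Fin n → ℂ) M] [IsManifold 𝓘(ℂ, Fin n → ℂ) ω M]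
    (hact : ProperCocompact n G M)
    {h : M → Matrix (Fin n) (Fin n) ℂ} (hh : KahlerMetric n M h)
    (hinv : ∀ γ : G, InvMetric n h (fun y : M => γ • y))
    {v : M → ℝ} (hv : CanMetric n M v)
    (hvinv : ∀ (γ : G) (x : M), v (γ • x) * ‖jac n (fun y : M => γ • y) x‖ ^ 2 = v x)
    (hr : SemiposCorankOne n M v) : OrbSemiample n G M :=
  orb_iff.2 (Pool.Agent.Helper10.SP.orb_of_main Pool.Agent.Helper10.SP.Asm.t_MAINSP hn
    ⟨hact.1, hact.2.1, hact.2.2.2⟩ hact.2.2.1 (kahler_iff.1 hh) (fun γ => inv_iff.1 (hinv γ))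
    (can_iff.1 hv) hvinv (corank_iff.1 hr))

end Pool.Agent.Results.MP_5ff3c6_ag.SemipositiveQuotients
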